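import Pool.Agent.Helper48.MG.Stmt
import Pool.Agent.Helper48.MG.Card

/-!
# The cardinal `ℵ_ω` of the model
-/

set_option autoImplicit false

namespace Pool.Agent.Helper48.MG

variable {M : Type} [ZFM M]

theorem isEmp_iff {x : M} : IsEmp ZFM.E x ↔ x = em M :=
  ⟨fun h => mem_ext fun _ => ⟨fun hy => (h _ hy).elim, fun hy => (not_mem_em hy).elim⟩,
    fun h y hy => not_mem_em (h ▸ hy)⟩

theorem isOPair_iff {z x y : M} : IsOPair ZFM.E z x y ↔ z = opair x y := by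
  rw [eq_opair_iff]
  simp only [IsOPair, IsUPair, or_self]

theorem apl_iff {f x y : M} : Apl ZFM.E f x y ↔ isin (opair x y) f := by
  constructor
  · rintro ⟨z, hz, h⟩
    rw [isOPair_iff] at hz
    exact hz ▸ h
  · intro h
    exact ⟨_, isOPair_iff.2 rfl, h⟩

theorem isOrdinal_iff {x : M} : IsOrdinal ZFM.E x ↔ IsOrd x := Iff.rfl

theorem zero_val : (cod M (0 : N M) : M) = em M := by
  refine mem_ext fun x => ⟨fun hx => ?_, fun hx => (not_mem_em hx).elim⟩
  have h1 : isin x (0 : N M).1.val := hx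
  have h2 : (⟨x, (0 : N M).1.ord.of_mem h1⟩ : Ord M) < (0 : N M).1 := h1
  exact (N.not_lt_zero (⟨⟨x, (0 : N M).1.ord.of_mem h1⟩, h2.trans (0 : N M).2⟩ : N M) h2).elim

theorem mem_om_iff {x : M} : isin x (om M).val ↔ ∃ n : N M, cod M n = x :=
  ⟨fun h => ⟨⟨⟨x, (om M).ord.of_mem h⟩, h⟩, rfl⟩, fun ⟨n, h⟩ => h ▸ n.2⟩

theorem isSuc_iff {m : M} {n : N M} : IsSuc ZFM.E m (cod M n) ↔ m = cod M (sc n) := by
  have key : ∀ z : M, isin z (cod M (sc n)) ↔ isin z (cod M n) ∨ z = cod M n := by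
    intro z
    constructor
    · intro hz
      have h1 : isin z (sc n).1.val := hz
      have h2 : (⟨z, (sc n).1.ord.of_mem h1⟩ : Ord M) < (sc n).1 := h1
      have h3 : (⟨⟨z, (sc n).1.ord.of_mem h1⟩, h2.trans (sc n).2⟩ : N M) < sc n := h2
      rcases lt_or_eq_of_le (N.lt_sc.1 h3) with h | h
      · left; exact h
      · right; rw [← h]; rfl
    · rintro (hz | rfl)
      · have h1 : (cod M n : M) = n.1.val := rfl
        have h2 : n < sc n := N.lt_sc_self n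
        exact (sc n).1.ord.1 _ h2 _ hz
      · exact N.lt_sc_self n
  constructor
  · intro h
    exact mem_ext fun z => (h z).trans (key z).symm
  · rintro rfl
    exact key

theorem isOmega_om : IsOmega ZFM.E (om M).val := by
  refine ⟨⟨⟨em M, isEmp_iff.2 rfl, ?_⟩, ?_⟩, ?_⟩
  · rw [← zero_val]; exact mem_om_iff.2 ⟨0, rfl⟩
  · intro x hx
    obtain ⟨n, rfl⟩ := mem_om_iff.1 hx
    exact ⟨_, isSuc_iff.2 rfl, mem_om_iff.2 ⟨sc n, rfl⟩⟩
  · rintro s ⟨⟨e, he, hes⟩, hs⟩ x hx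
    obtain ⟨n, rfl⟩ := mem_om_iff.1 hx
    refine N.ind (fun n => isin (cod M n) s) (IF.isin IF.cod (IF.const s)) ?_ ?_ n
    · rw [zero_val, ← isEmp_iff.1 he]; exact hes
    · intro k hk
      obtain ⟨y, hy, hys⟩ := hs _ hk
      rw [isSuc_iff] at hy
      exact hy ▸ hys

theorem isOmega_iff {w : M} : IsOmega ZFM.E w ↔ w = (om M).val := by
  constructor
  · intro h
    exact mem_ext fun x => ⟨fun hx => h.2 _ isOmega_om.1 x hx, fun hx => isOmega_om.2 _ h.1 x hx⟩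
  · rintro rfl; exact isOmega_om

/-- the graph of an internal injection between initial segments -/
theorem isInj_graph {c a : Ord M} (i : IFun M (Sg c) (Sg a)) (hi : ∀ x y, i x = i y → x = y) :
    IsInj ZFM.E (graph i) c.val a.val := by
  refine ⟨⟨fun z hz => ?_, fun x hx => ?_⟩, fun x x' y h h' => ?_⟩
  · obtain ⟨b, rfl⟩ := (mem_graph i z).1 hz
    exact ⟨cod M b, cod M (i b), b.2, (i b).2, isOPair_iff.2 rfl⟩
  · have hb : ∃ b : Sg c, cod M b = x := ⟨⟨⟨x, c.ord.of_mem hx⟩, hx⟩, rfl⟩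
    obtain ⟨b, rfl⟩ := hb
    refine ⟨cod M (i b), apl_iff.2 (opair_mem_graph.2 rfl), fun y' hy' => ?_⟩
    rw [apl_iff, mem_graph] at hy'
    obtain ⟨b', hb'⟩ := hy'
    obtain ⟨h1, h2⟩ := opair_inj hb'
    rw [← h2, Cl.inj h1]
  · rw [apl_iff, mem_graph] at h h'
    obtain ⟨b, hb⟩ := h
    obtain ⟨b', hb'⟩ := h'
    obtain ⟨h1, h2⟩ := opair_inj hb
    obtain ⟨h3, h4⟩ := opair_inj hb'
    have h5 : i b = i b' := Cl.inj (h2.trans h4.symm)
    rw [← h1, ← h3, hi _ _ h5]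

theorem exists_inj_iff {c a : Ord M} [Nonempty (Sg a)] :
    (∃ f, IsInj ZFM.E f c.val a.val) ↔ Cov a c := by
  constructor
  · rintro ⟨f, ⟨hdom, htot⟩, hinj⟩
    have hif : IF M (fun p : Sg a × Sg c => isin (opair (cod M p.2) (cod M p.1)) f) :=
      IF.isin (IF.opair (IF.cod.comp IF.snd) (IF.cod.comp IF.fst)) (IF.const f)
    obtain ⟨g, hg⟩ := IsSet.sub (Ob.set (M := M) (α := Sg a × Sg c)) (IF_prop_iff.1 hif)
      (fun x ⟨p, hp, _⟩ => ⟨p, hp⟩)
    have hg1 : ∀ (x d : M), isin (opair x d) g → Apl ZFM.E f d x := by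
      intro x d h
      rw [hg] at h
      obtain ⟨p, hp, h⟩ := h
      obtain ⟨h1, h2⟩ := opair_inj (show opair (cod M p.1) (cod M p.2) = _ from hp)
      rw [apl_iff, ← h1, ← h2]; exact h
    refine ⟨g, fun d hd => ?_, fun x d d' h h' => ?_⟩
    · obtain ⟨y, hy, _⟩ := htot d.val hd
      rw [apl_iff] at hy
      obtain ⟨d', y', _, hy', he⟩ := hdom _ hy
      rw [isOPair_iff] at he
      obtain ⟨_, e2⟩ := opair_inj he
      rw [← e2] at hy'
      refine ⟨⟨y, a.ord.of_mem hy'⟩, hy', (hg _).2 ⟨(⟨⟨y, a.ord.of_mem hy'⟩, hy'⟩, ⟨d, hd⟩), rfl, hy⟩⟩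
    · exact Ord.ext (hinj _ _ _ (hg1 _ _ h) (hg1 _ _ h'))
  · intro h
    obtain ⟨F, hF⟩ := cov_iff.1 h
    have hi : IF M (fun d : Sg c => lst M (fun x : Sg a => F x = d.ord)) := by fun_prop
    refine ⟨_, isInj_graph ⟨_, hi⟩ ?_⟩
    have hs : ∀ d : Sg c, F (lst M (fun x : Sg a => F x = d.ord)) = d.ord := fun d =>
      lst_spec (P := fun x : Sg a => F x = d.ord) (by fun_prop) (hF d.ord d.ord_lt)
    intro x y hxy
    have hxy' : lst M (fun z : Sg a => F z = x.ord) = lst M (fun z : Sg a => F z = y.ord) := hxy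
    apply Sg.ord_inj
    rw [← hs x, ← hs y, hxy']

theorem isNext_iff {b : M} {a : Ord M} [Nonempty (Sg a)] :
    IsNext ZFM.E b a.val ↔ b = (nxt a).val := by
  constructor
  · rintro ⟨h1, h2, h3⟩
    have hb : ∃ b' : Ord M, b'.val = b := ⟨⟨b, h1⟩, rfl⟩
    obtain ⟨b', rfl⟩ := hb
    rw [exists_inj_iff] at h2
    have h4 : nxt a ≤ b' := lst_le (P := fun b => ¬ Cov a b) (by fun_prop) h2
    rcases lt_or_eq_of_le h4 with h | h
    · have := h3 _ h
      rw [exists_inj_iff] at this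
      exact (not_cov_nxt a this).elim
    · rw [h]
  · rintro rfl
    refine ⟨(nxt a).ord, ?_, ?_⟩
    · rw [exists_inj_iff]; exact not_cov_nxt a
    · intro c hc
      have hc' : ∃ c' : Ord M, c'.val = c := ⟨⟨c, (nxt a).ord.of_mem hc⟩, rfl⟩
      obtain ⟨c', rfl⟩ := hc'
      rw [exists_inj_iff]
      exact cov_of_lt_nxt hc

theorem mem_alo_iff {x : M} : isin x (alo M).val ↔ ∃ n : N M, isin x (al n).val := by
  constructor
  · intro h
    exact lt_alo (a := ⟨x, (alo M).ord.of_mem h⟩) h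
  · rintro ⟨n, hn⟩
    exact (alo M).ord.1 _ (al_lt_alo n) _ hn

theorem IF_al : IF M (fun n : N M => al n) := by fun_prop

/-- the sequence of the `ω_n` -/
noncomputable def alFun (M : Type) [ZFM M] : IFun M (N M) (Ord M) := ⟨fun n => al n, IF_al⟩

theorem mem_alFun {n : N M} {a : M} : isin (opair (cod M n) a) (graph (alFun M)) ↔ a = (al n).val := by
  rw [mem_graph]
  constructor
  · rintro ⟨k, hk⟩
    obtain ⟨h1, h2⟩ := opair_inj hk
    have h3 : k = n := Cl.inj h1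
    subst h3
    exact h2.symm
  · rintro rfl
    exact ⟨n, rfl⟩

/-- `ℵ_ω` exists in the model -/
theorem exists_alephOmega : ∃ l, IsAlephOmega (ZFM.E (M := M)) l := by
  refine ⟨(alo M).val, (om M).val, graph (alFun M), isOmega_om, ?_, ?_, ?_, ?_, ?_⟩
  · intro z hz
    obtain ⟨n, rfl⟩ := (mem_graph _ _).1 hz
    exact ⟨_, _, mem_om_iff.2 ⟨n, rfl⟩, isOPair_iff.2 rfl⟩
  · intro n hn
    obtain ⟨n, rfl⟩ := mem_om_iff.1 hn
    refine ⟨(al n).val, apl_iff.2 (mem_alFun.2 rfl), fun a' ha' => ?_⟩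
    exact mem_alFun.1 (apl_iff.1 ha')
  · intro n hn
    rw [isEmp_iff.1 hn, ← zero_val, apl_iff, mem_alFun, al_zero]
  · intro n m a b hn hm ha hb
    obtain ⟨n, rfl⟩ := mem_om_iff.1 hn
    rw [isSuc_iff] at hm
    subst hm
    rw [apl_iff, mem_alFun] at ha hb
    subst ha
    subst hb
    have := nonempty_Sg_al n
    rw [isNext_iff, al_sc]
  · intro x
    refine mem_alo_iff.trans ?_
    constructor
    · rintro ⟨n, hn⟩
      exact ⟨cod M n, _, apl_iff.2 (mem_alFun.2 rfl), hn⟩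
    · rintro ⟨n, a, h, hx⟩
      rw [apl_iff, mem_graph] at h
      obtain ⟨k, hk⟩ := h
      obtain ⟨h1, h2⟩ := opair_inj hk
      refine ⟨k, ?_⟩
      have h3 : (al k).val = a := h2
      rw [h3]; exact hx

/-- `ℵ_ω` of the model is the ordinal `alo M` -/
theorem eq_alo {l : M} (h : IsAlephOmega ZFM.E l) : l = (alo M).val := by
  obtain ⟨w, s, hw, h1, h2, h3, h4, h5⟩ := h
  rw [isOmega_iff] at hw
  subst hw
  have key : ∀ n : N M, isin (opair (cod M n) (al n).val) s := by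
    refine N.ind _ (IF.isin (IF.opair IF.cod (IF.ordVal IF_al)) (IF.const s)) ?_ ?_
    · have := h3 (em M) (isEmp_iff.2 rfl)
      rw [zero_val, al_zero]
      exact apl_iff.1 this
    · intro n ih
      obtain ⟨b, hb, _⟩ := h2 (cod M (sc n)) (mem_om_iff.2 ⟨sc n, rfl⟩)
      have h6 := h4 (cod M n) _ _ _ (mem_om_iff.2 ⟨n, rfl⟩) (isSuc_iff.2 rfl) (apl_iff.2 ih) hb
      have := nonempty_Sg_al n
      rw [isNext_iff] at h6
      rw [apl_iff, h6, ← al_sc] at hb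
      exact hb
  refine mem_ext fun x => ?_
  refine (h5 x).trans (Iff.trans ?_ mem_alo_iff.symm)
  constructor
  · rintro ⟨n, a, h, hx⟩
    have h' := h
    rw [apl_iff] at h'
    obtain ⟨n', a', hn', he⟩ := h1 _ h'
    rw [isOPair_iff] at he
    obtain ⟨e1, _⟩ := opair_inj he
    rw [← e1] at hn'
    obtain ⟨k, rfl⟩ := mem_om_iff.1 hn'
    obtain ⟨a0, _, hu⟩ := h2 _ hn'
    have e2 := hu _ h
    have e3 := hu _ (apl_iff.2 (key k))
    refine ⟨k, ?_⟩
    rw [e3, ← e2]; exact hx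
  · rintro ⟨n, hn⟩
    exact ⟨cod M n, _, apl_iff.2 (key n), hn⟩

end Pool.Agent.Helper48.MG
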